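import Mathlib

/-!
# Connected `(6,3)`-regular graphs

There are at least two non-isomorphic connected `(6,3)`-regular graphs (`K_{3,3,3}` and the
complement of the Petersen graph), and every connected `(6,3)`-regular graph is finite.
-/

open SimpleGraph

universe u

namespace Pool.Agent.Results.MP_74392e_co.SixThreeRegular

/-- `G` is `(k,t)`-regular: every vertex has exactly `k` neighbours, and every edge `vw` lies in
exactly `t` triangles (`v` and `w` have exactly `t` common neighbours), i.e. every local graph is
`t`-regular. -/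
def IsRegularKT {V : Type u} (G : SimpleGraph V) (k t : ℕ) : Prop :=
  (∀ v, (G.neighborSet v).encard = k) ∧ ∀ v w, G.Adj v w → (G.commonNeighbors v w).encard = t

/-- `K_{3,3,3}` -/
def K333 : SimpleGraph (Fin 3 × Fin 3) where
  Adj a b := a.1 ≠ b.1
  symm := ⟨fun _ _ h => h.symm⟩
  loopless := ⟨fun _ h => h rfl⟩

instance : DecidableRel K333.Adj := fun a b => inferInstanceAs (Decidable (a.1 ≠ b.1))

/-- The adjacency of the Petersen graph on `ZMod 5 × Bool`. -/
def pet (a b : ZMod 5 × Bool) : Bool :=
  match a.2, b.2 with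
  | false, false => a.1 = b.1 + 1 ∨ b.1 = a.1 + 1
  | true, true => a.1 = b.1 + 2 ∨ b.1 = a.1 + 2
  | _, _ => a.1 = b.1

/-- The complement of the Petersen graph. -/
def coPet : SimpleGraph (ZMod 5 × Bool) where
  Adj a b := a ≠ b ∧ pet a b = false
  symm := ⟨by decide⟩
  loopless := ⟨by decide⟩

instance : DecidableRel coPet.Adj := fun a b =>
  inferInstanceAs (Decidable (a ≠ b ∧ pet a b = false))

lemma regular_of_fintype {V : Type u} [Fintype V] [DecidableEq V] (G : SimpleGraph V)
    [DecidableRel G.Adj] (k t : ℕ) (h1 : ∀ v, (Finset.univ.filter fun w => G.Adj v w).card = k)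
    (h2 : ∀ v w, G.Adj v w →
      (Finset.univ.filter fun x => G.Adj v x ∧ G.Adj w x).card = t) : IsRegularKT G k t := by
  refine ⟨fun v => ?_, fun v w hvw => ?_⟩
  · have : G.neighborSet v = ((Finset.univ.filter fun w => G.Adj v w : Finset V) : Set V) := by
      ext x
      simp
    rw [this, Set.encard_coe_eq_coe_finsetCard, h1]
  · have : G.commonNeighbors v w =
        ((Finset.univ.filter fun x => G.Adj v x ∧ G.Adj w x : Finset V) : Set V) := by
      ext x
      simp [mem_commonNeighbors]
    rw [this, Set.encard_coe_eq_coe_finsetCard, h2 v w hvw]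

lemma regular_K333 : IsRegularKT K333 6 3 := regular_of_fintype _ _ _ (by decide) (by decide)

lemma regular_coPet : IsRegularKT coPet 6 3 := by
  refine regular_of_fintype _ _ _ (by decide) ?_
  decide

lemma connected_of_two {V : Type u} (G : SimpleGraph V) (v : V)
    (h : ∀ w, w = v ∨ G.Adj v w ∨ ∃ a, G.Adj v a ∧ G.Adj a w) : G.Connected := by
  have h0 : ∀ x, G.Reachable v x := by
    intro x
    rcases h x with rfl | h | ⟨a, h1, h2⟩
    · exact Reachable.refl _
    · exact h.reachable
    · exact h1.reachable.trans h2.reachable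
  have : Nonempty V := ⟨v⟩
  exact ⟨fun x y => (h0 x).symm.trans (h0 y)⟩

lemma connected_K333 : K333.Connected := connected_of_two _ (0, 0) (by decide)

lemma connected_coPet : coPet.Connected := connected_of_two _ (0, false) (by decide)

/-- In a `(6,3)`-regular graph two vertices joined by a path of length two are equal, adjacent or
have at least three common neighbours. -/
lemma three_le {V : Type u} {G : SimpleGraph V} (hG : IsRegularKT G 6 3) {v a b : V}
    (hva : G.Adj v a) (hab : G.Adj a b) (hvb : ¬ G.Adj v b) (hne : v ≠ b) :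
    3 ≤ (G.commonNeighbors v b).encard := by
  classical
  -- inside the neighbourhood of `a`
  have hfin : ∀ x y : V, G.Adj x y → (G.commonNeighbors x y).Finite := fun x y h =>
    Set.finite_of_encard_eq_coe (hG.2 x y h)
  have hNa : (G.neighborSet a).Finite := Set.finite_of_encard_eq_coe (hG.1 a)
  set A := (hfin a v hva.symm).toFinset with hA
  set B := (hfin a b hab).toFinset with hB
  set N := hNa.toFinset with hN
  have hAc : A.card = 3 := by
    have := hG.2 a v hva.symm
    rw [(hfin a v hva.symm).encard_eq_coe_toFinset_card] at this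
    exact_mod_cast this
  have hBc : B.card = 3 := by
    have := hG.2 a b hab
    rw [(hfin a b hab).encard_eq_coe_toFinset_card] at this
    exact_mod_cast this
  have hNc : N.card = 6 := by
    have := hG.1 a
    rw [hNa.encard_eq_coe_toFinset_card] at this
    exact_mod_cast this
  have hunion : A ∪ B ⊆ (N.erase v).erase b := by
    intro x hx
    rw [Finset.mem_union] at hx
    rw [Finset.mem_erase, Finset.mem_erase]
    rcases hx with hx | hx
    · rw [hA, Set.Finite.mem_toFinset, mem_commonNeighbors] at hx
      refine ⟨?_, ?_, ?_⟩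
      · rintro rfl
        exact hvb hx.2
      · rintro rfl
        exact G.irrefl hx.2
      · rw [hN, Set.Finite.mem_toFinset]
        exact hx.1
    · rw [hB, Set.Finite.mem_toFinset, mem_commonNeighbors] at hx
      refine ⟨?_, ?_, ?_⟩
      · rintro rfl
        exact G.irrefl hx.2
      · rintro rfl
        exact hvb hx.2.symm
      · rw [hN, Set.Finite.mem_toFinset]
        exact hx.1
  have hcard : (A ∪ B).card ≤ 4 := by
    refine (Finset.card_le_card hunion).trans ?_
    rw [Finset.card_erase_of_mem, Finset.card_erase_of_mem, hNc]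
    · rw [hN, Set.Finite.mem_toFinset]
      exact hva.symm
    · rw [Finset.mem_erase, hN, Set.Finite.mem_toFinset]
      exact ⟨hne.symm, hab⟩
  have hinter : 2 ≤ (A ∩ B).card := by
    have := Finset.card_union_add_card_inter A B
    omega
  have haAB : a ∉ A ∩ B := by
    intro h
    rw [Finset.mem_inter, hA, Set.Finite.mem_toFinset, mem_commonNeighbors] at h
    exact G.irrefl h.1.1
  have hsub : ((insert a (A ∩ B) : Finset V) : Set V) ⊆ G.commonNeighbors v b := by
    intro x hx
    rw [Finset.mem_coe, Finset.mem_insert] at hx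
    rw [mem_commonNeighbors]
    rcases hx with rfl | hx
    · exact ⟨hva, hab.symm⟩
    · rw [Finset.mem_inter, hA, hB, Set.Finite.mem_toFinset, Set.Finite.mem_toFinset,
        mem_commonNeighbors, mem_commonNeighbors] at hx
      exact ⟨hx.1.2, hx.2.2⟩
  refine le_trans ?_ (Set.encard_le_encard hsub)
  rw [Set.encard_coe_eq_coe_finsetCard, Finset.card_insert_of_notMem haAB]
  exact_mod_cast (by omega : 3 ≤ (A ∩ B).card + 1)

/-- The ball of radius two is closed under adjacency. -/
lemma closed {V : Type u} {G : SimpleGraph V} (hG : IsRegularKT G 6 3) {v a b c : V}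
    (hva : G.Adj v a) (hab : G.Adj a b) (hvb : ¬ G.Adj v b) (hne : v ≠ b) (hbc : G.Adj b c) :
    G.Adj v c ∨ ∃ x, G.Adj v x ∧ G.Adj x c := by
  classical
  by_contra hcon
  push Not at hcon
  obtain ⟨h1, h2⟩ := hcon
  have h3 := three_le hG hva hab hvb hne
  have hNb : (G.neighborSet b).Finite := Set.finite_of_encard_eq_coe (hG.1 b)
  have hC1 : (G.commonNeighbors v b).Finite := hNb.subset fun x hx => hx.2
  have hC2 : (G.commonNeighbors b c).Finite := hNb.subset fun x hx => hx.1
  set N := hNb.toFinset
  set A := hC1.toFinset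
  set B := hC2.toFinset
  have hNc : N.card = 6 := by
    have := hG.1 b
    rw [hNb.encard_eq_coe_toFinset_card] at this
    exact_mod_cast this
  have hAc : 3 ≤ A.card := by
    rw [hC1.encard_eq_coe_toFinset_card] at h3
    exact_mod_cast h3
  have hBc : B.card = 3 := by
    have := hG.2 b c hbc
    rw [hC2.encard_eq_coe_toFinset_card] at this
    exact_mod_cast this
  have hdisj : Disjoint A B := by
    rw [Finset.disjoint_left]
    intro x hxA hxB
    have hxA' : x ∈ G.commonNeighbors v b := (Set.Finite.mem_toFinset _).mp hxA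
    have hxB' : x ∈ G.commonNeighbors b c := (Set.Finite.mem_toFinset _).mp hxB
    exact h2 x hxA'.1 hxB'.2.symm
  have hsub : A ∪ B ⊆ N.erase c := by
    intro x hx
    rw [Finset.mem_union] at hx
    rw [Finset.mem_erase]
    rcases hx with hx | hx
    · have hx' : x ∈ G.commonNeighbors v b := (Set.Finite.mem_toFinset _).mp hx
      refine ⟨?_, (Set.Finite.mem_toFinset _).mpr hx'.2⟩
      rintro rfl
      exact h1 hx'.1
    · have hx' : x ∈ G.commonNeighbors b c := (Set.Finite.mem_toFinset _).mp hx
      refine ⟨?_, (Set.Finite.mem_toFinset _).mpr hx'.1⟩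
      rintro rfl
      exact G.irrefl hx'.2
  have h4 := Finset.card_le_card hsub
  have hcN : c ∈ N := (Set.Finite.mem_toFinset _).mpr hbc
  rw [Finset.card_union_of_disjoint hdisj, Finset.card_erase_of_mem hcN] at h4
  omega

lemma walk_mem {V : Type u} {G : SimpleGraph V} {S : Set V}
    (hstep : ∀ x y, x ∈ S → G.Adj x y → y ∈ S) {x y : V} (p : G.Walk x y) : x ∈ S → y ∈ S := by
  induction p with
  | nil => exact id
  | cons h p ih => exact fun hx => ih (hstep _ _ hx h)

lemma finite_of_regular {V : Type u} (G : SimpleGraph V) (hc : G.Connected)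
    (hG : IsRegularKT G 6 3) : Finite V := by
  classical
  obtain ⟨v⟩ := hc.nonempty
  have hN : ∀ x, (G.neighborSet x).Finite := fun x => Set.finite_of_encard_eq_coe (hG.1 x)
  let S : Set V := {v} ∪ G.neighborSet v ∪ ⋃ a ∈ G.neighborSet v, G.neighborSet a
  have hS : S.Finite :=
    ((Set.finite_singleton v).union (hN v)).union ((hN v).biUnion fun a _ => hN a)
  have hmem : ∀ w, w ∈ S ↔ w = v ∨ G.Adj v w ∨ ∃ a, G.Adj v a ∧ G.Adj a w := by
    intro w
    simp [S, or_assoc]
  have hstep : ∀ x y, x ∈ S → G.Adj x y → y ∈ S := by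
    intro x y hx hxy
    rw [hmem] at hx ⊢
    rcases hx with rfl | hx | ⟨a, hva, hax⟩
    · exact Or.inr (Or.inl hxy)
    · exact Or.inr (Or.inr ⟨x, hx, hxy⟩)
    · by_cases h1 : v = x
      · subst h1
        exact Or.inr (Or.inl hxy)
      by_cases h2 : G.Adj v x
      · exact Or.inr (Or.inr ⟨x, h2, hxy⟩)
      · exact Or.inr (closed hG hva hax h2 h1 hxy)
  have hall : ∀ w, w ∈ S := by
    intro w
    obtain ⟨p⟩ := hc.preconnected v w
    exact walk_mem hstep p ((hmem v).mpr (Or.inl rfl))
  exact Set.finite_univ_iff.mp (hS.subset fun w _ => hall w)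

/-- **Q1 has a positive answer, with `(k,t) = (6,3)`.** -/
theorem result :
    (∃ (V W : Type) (G : SimpleGraph V) (H : SimpleGraph W), G.Connected ∧ H.Connected ∧
      IsRegularKT G 6 3 ∧ IsRegularKT H 6 3 ∧ IsEmpty (G ≃g H)) ∧
    ∀ (V : Type u) (G : SimpleGraph V), G.Connected → IsRegularKT G 6 3 → Finite V := by
  refine ⟨⟨_, _, K333, coPet, connected_K333, connected_coPet, regular_K333, regular_coPet, ?_⟩,
    fun V G hc hG => finite_of_regular G hc hG⟩
  refine ⟨fun e => ?_⟩
  have h := Fintype.card_congr e.toEquiv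
  revert h
  decide

end Pool.Agent.Results.MP_74392e_co.SixThreeRegular
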